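import Pool.Agent.KS6_70.SK.A

set_option autoImplicit false

namespace Pool.Agent.KS6_70.SK

universe u

open SkewLaurent

/-! ### The coefficient ring is semilocal -/

section semilocal

variable {A : Type u} [Ring A] {φ : RingAut A}

/-- the left ideal of the series `∑ x^n a_n` with all `a_n ∈ L` -/
def star (φ : RingAut A) (L : Ideal A) : Ideal (SkewLaurent A φ) where
  carrier := {f | ∀ n, (φ ^ (-n)) (f.coeff n) ∈ L}
  zero_mem' := by
    intro n
    rw [coeff_zero, map_zero]
    exact L.zero_mem
  add_mem' := by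
    intro f g hf hg n
    rw [coeff_add, map_add]
    exact L.add_mem (hf n) (hg n)
  smul_mem' := by
    intro g f hf n
    change (φ ^ (-n)) ((g * f).coeff n) ∈ L
    rw [SkewLaurent.coeff_mul]
    have hmap := (φ ^ (-n) : RingAut A).toAddMonoidHom.map_finsum (finite_support g f n)
    change (φ ^ (-n)) _ = ∑ᶠ i, (φ ^ (-n)) _ at hmap
    rw [hmap]
    refine finsum_induction (fun x => x ∈ L) L.zero_mem (fun _ _ => L.add_mem) fun i => ?_
    rw [map_mul, ← zpow_add_apply]
    have h1 := hf (n - i)
    rw [show -(n - i) = -n + i by ring] at h1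
    exact L.mul_mem_left _ h1

lemma mem_star {L : Ideal A} {f : SkewLaurent A φ} :
    f ∈ star φ L ↔ ∀ n, (φ ^ (-n)) (f.coeff n) ∈ L := Iff.rfl

lemma star_mono {L M : Ideal A} (h : L ≤ M) : star φ L ≤ star φ M := fun _ hf n => h (hf n)

lemma mono_mem_star {L : Ideal A} {a : A} (ha : a ∈ L) : mono φ 0 a ∈ star φ L := by
  intro n
  rw [coeff_mono]
  split_ifs with h
  · rw [h]
    simpa using ha
  · rw [map_zero]
    exact L.zero_mem

lemma eq_top_of_star {L : Ideal A} (h : star φ L = ⊤) : L = ⊤ := by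
  rw [Ideal.eq_top_iff_one] at h ⊢
  have h1 := h 0
  rw [SkewLaurent.coeff_one, if_pos rfl] at h1
  simpa using h1

lemma star_sup {L M : Ideal A} (h : L ⊔ M = ⊤) : star φ L ⊔ star φ M = ⊤ := by
  rw [Ideal.eq_top_iff_one] at h ⊢
  obtain ⟨l, hl, m, hm, hlm⟩ := Submodule.mem_sup.1 h
  refine Submodule.mem_sup.2 ⟨mono φ 0 l, mono_mem_star hl, mono φ 0 m, mono_mem_star hm, ?_⟩
  rw [← SkewLaurent.mono_add, hlm]
  rfl

lemma eq_top_of_sup_jacobson {R : Type u} [Ring R] {L : Ideal R} (h : L ⊔ Ring.jacobson R = ⊤) :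
    L = ⊤ := by
  rw [Ideal.eq_top_iff_one] at h ⊢
  obtain ⟨l, hl, j, hj, hlj⟩ := Submodule.mem_sup.1 h
  obtain ⟨z, hz⟩ := left_inv_one_add ((Ring.jacobson R).neg_mem hj)
  have h1 : 1 + -j = l := by
    rw [← hlj]; abel
  rw [h1] at hz
  rw [← hz]
  exact L.mul_mem_left _ hl

/-- the identity of `R / J` as a semilinear map -/
def idSemi {R : Type u} [Ring R] (J : Ideal R) [J.IsTwoSided] :
    (R ⧸ J) →ₛₗ[Ideal.Quotient.mk J] (R ⧸ J) where
  toFun := id
  map_add' _ _ := rfl
  map_smul' r x := by
    obtain ⟨y, rfl⟩ := Ideal.Quotient.mk_surjective x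
    rfl

lemma semisimple_iff {R : Type u} [Ring R] (J : Ideal R) [J.IsTwoSided] :
    IsSemisimpleModule R (R ⧸ J) ↔ IsSemisimpleRing (R ⧸ J) := by
  have : RingHomSurjective (Ideal.Quotient.mk J) := ⟨Ideal.Quotient.mk_surjective⟩
  exact (idSemi J).isSemisimpleModule_iff_of_bijective Function.bijective_id

lemma isArtinian_quot {R : Type u} [Ring R] (h : IsSemilocal R) :
    IsArtinian R (R ⧸ Ring.jacobson R) := by
  have : IsSemisimpleModule R (R ⧸ Ring.jacobson R) := (semisimple_iff _).2 h
  have h1 := IsSemisimpleModule.finite_tfae (R := R) (M := R ⧸ Ring.jacobson R)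
  have h2 : Module.Finite R (R ⧸ Ring.jacobson R) := inferInstance
  exact (h1.out 0 2).1 h2

/-- if `J(A)` is a finite intersection of maximal left ideals, then `A` is semilocal -/
lemma isSemilocal_of_finset (T : Finset (Ideal A)) (hT : ∀ M ∈ T, M.IsMaximal)
    (hJ : T.inf id = Ring.jacobson A) : IsSemilocal A := by
  classical
  have hsimple : ∀ M : T, IsSimpleModule A (A ⧸ M.1) := fun M =>
    isSimpleModule_iff_isCoatom.2 (Ideal.isMaximal_def.1 (hT M.1 M.2))
  have : ∀ M : T, IsSemisimpleModule A (A ⧸ M.1) := fun M => inferInstance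
  let f : A →ₗ[A] (Π M : T, A ⧸ M.1) := LinearMap.pi fun M => Submodule.mkQ M.1
  have hker : LinearMap.ker f = Ring.jacobson A := by
    rw [← hJ]
    ext a
    rw [LinearMap.mem_ker]
    constructor
    · intro h
      rw [Submodule.mem_finsetInf]
      intro M hM
      have h1 := congrFun h ⟨M, hM⟩
      exact (Submodule.Quotient.mk_eq_zero M).1 h1
    · intro h
      rw [Submodule.mem_finsetInf] at h
      funext M
      exact (Submodule.Quotient.mk_eq_zero M.1).2 (h M.1 M.2)
  have h1 : IsSemisimpleModule A (A ⧸ Ring.jacobson A) := by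
    have h2 : IsSemisimpleModule A (LinearMap.range f) := inferInstance
    let e : (A ⧸ Ring.jacobson A) ≃ₗ[A] LinearMap.range f :=
      (Submodule.quotEquivOfEq _ _ hker.symm).trans f.quotKerEquivRange
    exact IsSemisimpleModule.congr (M := LinearMap.range f) e
  exact (semisimple_iff _).1 h1

/-- **the coefficient ring is semilocal**, and `J(A)` is a finite intersection of maximal left
ideals -/
theorem exists_finset (h : IsSemilocal (SkewLaurent A φ)) :
    ∃ T : Finset (Ideal A), (∀ M ∈ T, M.IsMaximal) ∧ T.inf id = Ring.jacobson A := by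
  classical
  have := isArtinian_quot h
  let J := Ring.jacobson (SkewLaurent A φ)
  let N : Finset (Ideal A) → Submodule (SkewLaurent A φ) (SkewLaurent A φ ⧸ J) := fun T =>
    Submodule.map (Submodule.mkQ J) (star φ (T.inf id))
  obtain ⟨N0, ⟨T, hT, rfl⟩, hmin⟩ := IsArtinian.set_has_minimal
    {P | ∃ T : Finset (Ideal A), (∀ M ∈ T, M.IsMaximal) ∧ P = N T} ⟨N ∅, ∅, by simp, rfl⟩
  refine ⟨T, hT, le_antisymm ?_ ?_⟩
  · rw [Ring.jacobson_eq_sInf_isMaximal]
    refine le_sInf fun M hM => ?_
    have hM' : M.IsMaximal := hM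
    by_contra hcon
    -- the two left ideals are comaximal
    have h1 : T.inf id ⊔ M = ⊤ := by
      apply hM'.1.2
      rw [right_lt_sup]
      exact hcon
    have h2 : N (insert M T) = N T := by
      have h3 : N (insert M T) ≤ N T := by
        refine Submodule.map_mono (star_mono ?_)
        rw [Finset.inf_insert]
        exact inf_le_right
      by_contra h4
      exact hmin (N (insert M T)) ⟨insert M T, by
        intro M' hM''
        rcases Finset.mem_insert.1 hM'' with rfl | h5
        · exact hM'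
        · exact hT M' h5, rfl⟩ (lt_of_le_of_ne h3 h4)
    have h5 : star φ (T.inf id) ≤ star φ M ⊔ J := by
      intro x hx
      have h6 : Submodule.mkQ J x ∈ N (insert M T) := by
        rw [h2]
        exact Submodule.mem_map_of_mem hx
      obtain ⟨y, hy, hyx⟩ := Submodule.mem_map.1 h6
      have h7 : x - y ∈ J := by
        have := (Submodule.Quotient.eq J).1 hyx.symm
        exact this
      have h8 : y ∈ star φ M := star_mono (by
        rw [Finset.inf_insert]; exact inf_le_left) hy
      have : x = y + (x - y) := by abel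
      rw [this]
      exact Submodule.add_mem_sup h8 h7
    have h9 : star φ M ⊔ J = ⊤ := by
      rw [eq_top_iff, ← star_sup (φ := φ) h1]
      exact sup_le h5 le_sup_left
    exact hM'.ne_top (eq_top_of_star (eq_top_of_sup_jacobson h9))
  · refine Finset.le_inf fun M hM => ?_
    rw [Ring.jacobson_eq_sInf_isMaximal]
    exact sInf_le (hT M hM)

theorem isSemilocal_coeff (h : IsSemilocal (SkewLaurent A φ)) : IsSemilocal A := by
  obtain ⟨T, hT, hJ⟩ := exists_finset h
  exact isSemilocal_of_finset T hT hJ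

end semilocal

/-! ### Geometric sums in semilocal rings -/

section geom

open Polynomial

/-- the polynomial `1 + X + ⋯ + X^(m-1)` -/
noncomputable def gp (m : ℕ) : ℤ[X] := ∑ i ∈ Finset.range m, X ^ i

lemma isCoprime_gp : ∀ N m n : ℕ, m + n ≤ N → Nat.Coprime m n → IsCoprime (gp m) (gp n) := by
  intro N
  induction N with
  | zero =>
    intro m n hN h
    have hm : m = 0 := by omega
    have hn : n = 0 := by omega
    subst hm hn
    simp at h
  | succ N ih =>
    intro m n hN h
    have hsplit : ∀ a b : ℕ, gp (a + b) = gp a + X ^ a * gp b := by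
      intro a b
      unfold gp
      rw [Finset.sum_range_add, Finset.mul_sum]
      congr 1
      exact Finset.sum_congr rfl fun i _ => pow_add _ _ _
    rcases Nat.eq_zero_or_pos m with rfl | hm
    · have hn : n = 1 := by simpa using h
      subst hn
      have : gp 1 = 1 := by simp [gp]
      rw [this]
      exact isCoprime_one_right
    · rcases Nat.eq_zero_or_pos n with rfl | hn
      · have hn : m = 1 := by simpa using h
        subst hn
        have : gp 1 = 1 := by simp [gp]
        rw [this]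
        exact isCoprime_one_left
      · rcases le_total m n with hmn | hmn
        · obtain ⟨c, rfl⟩ : ∃ c, n = c + m := ⟨n - m, by omega⟩
          have h1 : Nat.Coprime m c := by simpa using h
          have h2 := ih m c (by omega) h1
          rw [hsplit]
          have h3 := h2.add_mul_left_right (X ^ c)
          rwa [mul_comm (gp m)] at h3
        · obtain ⟨c, rfl⟩ : ∃ c, m = c + n := ⟨m - n, by omega⟩
          have h1 : Nat.Coprime c n := by simpa using h
          have h2 := ih c n (by omega) h1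
          rw [hsplit]
          have h3 := h2.add_mul_left_left (X ^ c)
          rwa [mul_comm (gp n)] at h3

lemma aeval_gp {R : Type u} [Ring R] (b : R) (m : ℕ) :
    aeval b (gp m) = ∑ i ∈ Finset.range m, b ^ i := by
  simp [gp]

/-- in a left Artinian ring, for every `b` some geometric sum `1 + b + ⋯ + b^(p-1)`, `p` prime, is
a unit -/
lemma exists_unit_geom {R : Type u} [Ring R] [IsNoetherianRing R] [IsArtinianRing R] (b : R) :
    ∃ m, 2 ≤ m ∧ IsUnit (∑ i ∈ Finset.range m, b ^ i) := by
  let p : ℕ → ℕ := Nat.nth Nat.Prime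
  have hp : ∀ n, (p n).Prime := Nat.prime_nth_prime
  have hpne : ∀ i j, i ≠ j → p i ≠ p j := fun i j hij h =>
    hij (Nat.nth_injective Nat.infinite_setOf_prime h)
  let Q : ℕ → ℤ[X] := fun n => ∏ i ∈ Finset.range n, gp (p i)
  have hcop : ∀ n, IsCoprime (gp (p n)) (Q n) := by
    intro n
    refine IsCoprime.prod_right fun i hi => isCoprime_gp _ _ _ le_rfl ?_
    refine (Nat.coprime_primes (hp n) (hp i)).2 (hpne n i ?_)
    exact (Finset.mem_range.1 hi).ne'
  let Kr : ℕ →o Submodule R R :=
    { toFun := fun n => LinearMap.ker (LinearMap.toSpanSingleton R R (aeval b (Q n)))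
      monotone' := by
        refine monotone_nat_of_le_succ fun n => ?_
        intro y hy
        rw [LinearMap.mem_ker, LinearMap.toSpanSingleton_apply, smul_eq_mul] at hy ⊢
        have : Q (n + 1) = Q n * gp (p n) := Finset.prod_range_succ _ _
        rw [this, map_mul, ← mul_assoc, hy, zero_mul] }
  obtain ⟨n, hn⟩ := monotone_stabilizes_iff_noetherian.2 (inferInstance : IsNoetherian R R) Kr
  have hinj : ∀ y : R, y * aeval b (gp (p n)) = 0 → y = 0 := by
    intro y hy
    have h1 : y ∈ Kr (n + 1) := by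
      change y ∈ LinearMap.ker _
      rw [LinearMap.mem_ker, LinearMap.toSpanSingleton_apply, smul_eq_mul]
      have : Q (n + 1) = gp (p n) * Q n := by
        rw [mul_comm]
        exact Finset.prod_range_succ _ _
      rw [this, map_mul, ← mul_assoc, hy, zero_mul]
    rw [← hn (n + 1) (Nat.le_succ n)] at h1
    change y ∈ LinearMap.ker _ at h1
    rw [LinearMap.mem_ker, LinearMap.toSpanSingleton_apply, smul_eq_mul] at h1
    obtain ⟨u, v, huv⟩ := hcop n
    have h2 := congrArg (fun q => y * aeval b q) huv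
    simp only [map_add, map_one, mul_one] at h2
    rw [mul_comm u, mul_comm v, map_mul, map_mul, mul_add, ← mul_assoc, ← mul_assoc, hy, h1,
      zero_mul, zero_mul, add_zero] at h2
    exact h2.symm
  refine ⟨p n, (hp n).two_le, ?_⟩
  rw [← aeval_gp]
  let f : R →ₗ[R] R := LinearMap.toSpanSingleton R R (aeval b (gp (p n)))
  have hf : Function.Injective f := by
    rw [← LinearMap.ker_eq_bot, LinearMap.ker_eq_bot']
    intro y hy
    apply hinj
    simpa [f] using hy
  obtain ⟨z, hz⟩ := IsArtinian.surjective_of_injective_endomorphism f hf 1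
  have hz' : z * aeval b (gp (p n)) = 1 := by simpa [f] using hz
  have hz'' : aeval b (gp (p n)) * z = 1 := by
    have h1 : (aeval b (gp (p n)) * z - 1) * aeval b (gp (p n)) = 0 := by
      rw [sub_mul, mul_assoc, hz', mul_one, one_mul, sub_self]
    exact sub_eq_zero.1 (hinj _ h1)
  exact ⟨⟨_, z, hz'', hz'⟩, rfl⟩

/-- `1 + j` is a unit for `j` in the Jacobson radical -/
lemma isUnit_one_add {R : Type u} [Ring R] {j : R} (hj : j ∈ Ring.jacobson R) :
    IsUnit (1 + j) := by
  obtain ⟨z, hz⟩ := left_inv_one_add hj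
  have h1 : z = 1 + -(z * j) := by
    rw [mul_add, mul_one] at hz
    rw [← hz]; abel
  obtain ⟨w, hw⟩ := left_inv_one_add ((Ring.jacobson R).neg_mem ((Ring.jacobson R).mul_mem_left z hj))
  rw [← h1] at hw
  have h2 : w = 1 + j := by
    calc w = w * (z * (1 + j)) := by rw [hz, mul_one]
      _ = 1 + j := by rw [← mul_assoc, hw, one_mul]
  rw [h2] at hw
  exact ⟨⟨1 + j, z, hw, hz⟩, rfl⟩

lemma isUnit_of_quot {R : Type u} [Ring R] {x : R}
    (hx : IsUnit (Ideal.Quotient.mk (Ring.jacobson R) x)) : IsUnit x := by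
  obtain ⟨u, hu⟩ := hx
  obtain ⟨y, hy⟩ := Ideal.Quotient.mk_surjective (u⁻¹ : (R ⧸ Ring.jacobson R)ˣ).1
  have h1 : Ideal.Quotient.mk (Ring.jacobson R) (x * y) = Ideal.Quotient.mk (Ring.jacobson R) 1 := by
    rw [map_mul, hy, ← hu, Units.mul_inv, map_one]
  have h2 : Ideal.Quotient.mk (Ring.jacobson R) (y * x) = Ideal.Quotient.mk (Ring.jacobson R) 1 := by
    rw [map_mul, hy, ← hu, Units.inv_mul, map_one]
  rw [Ideal.Quotient.eq] at h1 h2
  obtain ⟨c, hc⟩ := isUnit_one_add h1
  obtain ⟨d, hd⟩ := isUnit_one_add h2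
  have h3 : x * (y * (c⁻¹ : Rˣ).1) = 1 := by
    rw [← mul_assoc]
    have : x * y = c.1 := by rw [hc]; abel
    rw [this, Units.mul_inv]
  have h4 : ((d⁻¹ : Rˣ).1 * y) * x = 1 := by
    rw [mul_assoc]
    have : y * x = d.1 := by rw [hd]; abel
    rw [this, Units.inv_mul]
  have h5 : (d⁻¹ : Rˣ).1 * y = y * (c⁻¹ : Rˣ).1 := left_inv_eq_right_inv h4 h3
  rw [h5] at h4
  exact ⟨⟨x, _, h3, h4⟩, rfl⟩

theorem exists_unit_geom' {R : Type u} [Ring R] (h : IsSemilocal R) (b : R) :
    ∃ m, 2 ≤ m ∧ IsUnit (∑ i ∈ Finset.range m, b ^ i) := by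
  have hss : IsSemisimpleRing (R ⧸ Ring.jacobson R) := h
  obtain ⟨m, hm, hu⟩ := exists_unit_geom (Ideal.Quotient.mk (Ring.jacobson R) b)
  refine ⟨m, hm, isUnit_of_quot ?_⟩
  rw [map_sum]
  simpa using hu

end geom

end Pool.Agent.KS6_70.SK
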