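import Pool.Agent.KS6_70.SK.B

set_option autoImplicit false

namespace Pool.Agent.KS6_70.SK

universe u

open SkewLaurent

section nil

variable {A : Type u} [Ring A] {φ : RingAut A}

lemma mono_mul_mono (n m : ℤ) (a b : A) :
    mono φ n a * mono φ m b = mono φ (n + m) (a * (φ ^ n) b) := by
  ext j
  rw [coeff_mono_mul, coeff_mono, coeff_mono]
  by_cases h : j = n + m
  · rw [if_pos h, if_pos (by omega)]
  · rw [if_neg h, if_neg (by omega), map_zero, mul_zero]

lemma mono_injective {n : ℤ} {a b : A} (h : mono φ n a = mono φ n b) : a = b := by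
  have := congrArg (fun f => coeff f n) h
  simpa [coeff_mono] using this

/-- the product `a φ^(-i)(a) φ^(-2i)(a) ⋯ φ^(-i(k-1))(a)` -/
def nprod (φ : RingAut A) (i : ℤ) (a : A) (k : ℕ) : A :=
  ((List.range k).map fun s : ℕ => (φ ^ (-(i * s))) a).prod

lemma nprod_succ (i : ℤ) (a : A) (k : ℕ) :
    nprod φ i a (k + 1) = nprod φ i a k * (φ ^ (-(i * k))) a := by
  unfold nprod
  rw [List.range_succ, List.map_append, List.prod_append]
  simp

lemma mono_pow (i : ℤ) (a : A) (k : ℕ) :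
    (mono φ (-i) a) ^ k = mono φ (-(i * k)) (nprod φ i a k) := by
  induction k with
  | zero => simp [nprod, one_def]
  | succ k ih =>
    rw [pow_succ, ih, mono_mul_mono, nprod_succ]
    congr 1
    push_cast
    ring

lemma nprod_add (i : ℤ) (a : A) (k l : ℕ) :
    nprod φ i a (k + l) = nprod φ i a k * (φ ^ (-(i * k))) (nprod φ i a l) := by
  have h := pow_add (mono φ (-i) a) k l
  rw [mono_pow, mono_pow, mono_pow, mono_mul_mono] at h
  have e : -(i * k) + -(i * l) = -(i * ((k + l : ℕ) : ℤ)) := by push_cast; ring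
  rw [e] at h
  exact mono_injective h

lemma nprod_one (i : ℤ) (a : A) : nprod φ i a 1 = a := by
  unfold nprod
  rw [List.range_one, List.map_cons, List.map_nil, List.prod_cons, List.prod_nil, mul_one,
    Nat.cast_zero, mul_zero, neg_zero, zpow_zero]
  rfl

lemma nprod_mem {a : A} (ha : a ∈ Ring.jacobson A) (i : ℤ) {k : ℕ} (hk : 1 ≤ k) :
    nprod φ i a k ∈ Ring.jacobson A := by
  obtain ⟨l, rfl⟩ : ∃ l, k = 1 + l := ⟨k - 1, by omega⟩
  rw [nprod_add]
  refine Ideal.mul_mem_right _ _ ?_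
  rw [nprod_one]
  exact ha

/-- **every element of `J(A)` is `φ`-nilpotent** -/
theorem exists_nprod_eq_zero (h : IsSemilocal (SkewLaurent A φ)) {a : A}
    (ha : a ∈ Ring.jacobson A) {i : ℤ} (hi : 1 ≤ i) : ∃ k, nprod φ i a k = 0 := by
  obtain ⟨m, hm, hu⟩ := exists_unit_geom' h (mono φ (-i) a)
  obtain ⟨g, hg⟩ := hu.exists_right_inv
  have hmz : (2 : ℤ) ≤ m := by exact_mod_cast hm
  have h1 : ((mono φ (-i) a) ^ m - 1) * g = mono φ (-i) a - 1 := by
    rw [← mul_geom_sum, mul_assoc, hg, mul_one]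
  rw [mono_pow] at h1
  have hcoef : ∀ j : ℤ, nprod φ i a m * (φ ^ (-(i * m))) (g.coeff (j + i * m)) - g.coeff j =
      (if j = -i then a else 0) - (if j = 0 then 1 else 0) := by
    intro j
    have h2 : (((mono φ (-(i * m)) (nprod φ i a m) - 1) * g).coeff j) =
      (mono φ (-i) a - 1).coeff j := by rw [h1]
    rw [sub_mul, one_mul, coeff_sub, coeff_sub, coeff_mono_mul, coeff_mono,
      SkewLaurent.coeff_one] at h2
    rwa [show j - -(i * (m : ℤ)) = j + i * m by ring] at h2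
  -- the constant coefficient is a unit
  have h0 : IsUnit (g.coeff 0) := by
    have h2 := hcoef 0
    rw [if_neg (by omega), if_pos rfl, zero_add, zero_sub] at h2
    have h3 : g.coeff 0 = 1 + nprod φ i a m * (φ ^ (-(i * m))) (g.coeff (i * m)) := by
      have h4 := congrArg (fun x => nprod φ i a m * (φ ^ (-(i * m))) (g.coeff (i * m)) - x) h2
      simp only [sub_sub_cancel, sub_neg_eq_add] at h4
      rw [h4, add_comm]
    rw [h3]
    exact isUnit_one_add (Ideal.mul_mem_right _ _ (nprod_mem ha i (by omega)))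
  have hrec : ∀ s : ℕ, g.coeff (-(i * m * s)) =
      nprod φ i a (m * s) * (φ ^ (-(i * m * s))) (g.coeff 0) := by
    intro s
    induction s with
    | zero => simp [nprod]
    | succ s ih =>
      have hs : (0 : ℤ) ≤ s := Int.natCast_nonneg s
      have hbig : i * 2 ≤ i * m * ((s + 1 : ℕ) : ℤ) := by
        push_cast
        nlinarith [mul_nonneg (mul_nonneg (by omega : (0:ℤ) ≤ i) (by omega : (0:ℤ) ≤ m)) hs]
      have h2 := hcoef (-(i * m * ((s + 1 : ℕ) : ℤ)))
      rw [if_neg (by omega), if_neg (by omega), sub_self, sub_eq_zero] at h2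
      rw [← h2]
      have e : -(i * m * ((s + 1 : ℕ) : ℤ)) + i * m = -(i * m * s) := by push_cast; ring
      rw [e, ih, map_mul, ← mul_assoc, ← zpow_add_apply]
      have e2 : m * (s + 1) = m + m * s := by ring
      rw [e2, nprod_add]
      congr 2
      push_cast
      ring_nf
  obtain ⟨N, hN⟩ := g.bdd
  obtain ⟨s, hs⟩ : ∃ s : ℕ, -(i * m * s) < N := by
    refine ⟨(-N).toNat + 1, ?_⟩
    have h2 : (-N) ≤ (-N).toNat := Int.self_le_toNat _
    push_cast
    have h3 : (0 : ℤ) ≤ (-N).toNat := Int.natCast_nonneg _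
    have h4 : (1 : ℤ) ≤ i * m := by nlinarith
    nlinarith
  refine ⟨m * s, ?_⟩
  have h2 := hrec s
  rw [hN _ hs] at h2
  have h3 : IsUnit ((φ ^ (-(i * m * (s : ℤ)))) (g.coeff 0)) := h0.map _
  obtain ⟨c, hc⟩ := h3.exists_right_inv
  calc nprod φ i a (m * s) = nprod φ i a (m * s) * ((φ ^ (-(i * m * (s : ℤ)))) (g.coeff 0) * c) := by
        rw [hc, mul_one]
    _ = 0 := by rw [← mul_assoc, ← h2, zero_mul]

/-- an element of `J(A)` with finite orbit is nilpotent -/
theorem isNilpotent_of_orbit (h : IsSemilocal (SkewLaurent A φ)) {a : A}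
    (ha : a ∈ Ring.jacobson A) {n : ℕ} (hn : 1 ≤ n) (hfix : (φ ^ n) a = a) : IsNilpotent a := by
  obtain ⟨k, hk⟩ := exists_nprod_eq_zero h ha (i := n) (by exact_mod_cast hn)
  refine ⟨k, ?_⟩
  rw [← hk]
  unfold nprod
  have h1 : ∀ s : ℕ, (φ ^ (-((n : ℤ) * s))) a = a := by
    intro s
    have h2 : ∀ s : ℕ, (φ ^ ((n : ℤ) * s)) a = a := by
      intro s
      induction s with
      | zero => simp
      | succ s ih =>
        rw [show (n : ℤ) * ((s + 1 : ℕ) : ℤ) = n * s + n by push_cast; ring, zpow_add_apply]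
        rw [zpow_natCast, hfix, ih]
    have h3 := congrArg (φ ^ (-((n : ℤ) * s))) (h2 s)
    rw [← zpow_add_apply, neg_add_cancel, zpow_zero] at h3
    exact h3.symm
  rw [List.map_congr_left (fun s _ => h1 s)]
  simp

end nil

/-- Q1 holds if the elements of `J(A)` have finite orbits -/
theorem semiperfect_of_orbits {A : Type u} [Ring A] {φ : RingAut A}
    (h : IsSemilocal (SkewLaurent A φ))
    (horb : ∀ a ∈ Ring.jacobson A, ∃ n : ℕ, 1 ≤ n ∧ (φ ^ n) a = a) :
    IsSemiperfect A ∧ ∀ a ∈ Ring.jacobson A, IsNilpotent a := by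
  have hnil : ∀ a ∈ Ring.jacobson A, IsNilpotent a := by
    intro a ha
    obtain ⟨n, hn, hfix⟩ := horb a ha
    exact isNilpotent_of_orbit h ha hn hfix
  refine ⟨⟨isSemilocal_coeff h, fun e he => ?_⟩, hnil⟩
  obtain ⟨f, hf, hfe⟩ := exists_isIdempotentElem_eq_of_ker_isNilpotent
    (Ideal.Quotient.mk (Ring.jacobson A)) (fun x hx => hnil x (by
      rwa [RingHom.mem_ker, Ideal.Quotient.eq_zero_iff_mem] at hx)) e
    (Ideal.Quotient.mk_surjective e) he
  exact ⟨f, hf, hfe⟩

/-- **the commutative case**: the coefficient ring is semiperfect -/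
theorem semiperfect_of_comm {A : Type u} [CommRing A] {φ : RingAut A}
    (h : IsSemilocal (SkewLaurent A φ)) : IsSemiperfect A := by
  classical
  refine ⟨isSemilocal_coeff h, fun e he => ?_⟩
  obtain ⟨c, rfl⟩ := Ideal.Quotient.mk_surjective e
  have hc : c * c - c ∈ Ring.jacobson A := by
    rw [← Ideal.Quotient.eq, map_mul]
    exact he
  obtain ⟨T, hT, hTJ⟩ := exists_finset h
  -- automorphisms preserve the radical
  have hφJ : ∀ (n : ℤ) (x : A), x ∈ Ring.jacobson A → (φ ^ n) x ∈ Ring.jacobson A := by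
    intro n x hx
    rw [mem_jacobson_iff'] at hx ⊢
    intro y
    obtain ⟨z, hz⟩ := hx ((φ ^ (-n)) y)
    refine ⟨(φ ^ n) z, ?_⟩
    have h1 := congrArg (φ ^ n) hz
    rw [map_mul, map_add, map_one, map_mul, ← zpow_add_apply, add_neg_cancel, zpow_zero] at h1
    exact h1
  have hcn : ∀ n : ℤ, (φ ^ n) c * (φ ^ n) c - (φ ^ n) c ∈ Ring.jacobson A := by
    intro n
    have := hφJ n _ hc
    rwa [map_sub, map_mul] at this
  -- pigeonhole
  obtain ⟨k, l, hkl, heq⟩ := Finite.exists_ne_map_eq_of_infinite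
    (fun (k : ℕ) (M : T) => ((φ ^ (k : ℤ)) c ∈ M.1 : Prop))
  have hper : ∃ n : ℕ, 1 ≤ n ∧ (φ ^ (n : ℤ)) c - c ∈ Ring.jacobson A := by
    have key : ∀ k l : ℕ, k < l →
        (fun (M : T) => ((φ ^ (k : ℤ)) c ∈ M.1 : Prop)) = (fun (M : T) => ((φ ^ (l : ℤ)) c ∈ M.1 : Prop)) →
        ∃ n : ℕ, 1 ≤ n ∧ (φ ^ (n : ℤ)) c - c ∈ Ring.jacobson A := by
      intro k l hkl heq
      refine ⟨l - k, by omega, ?_⟩
      have h1 : (φ ^ (l : ℤ)) c - (φ ^ (k : ℤ)) c ∈ Ring.jacobson A := by
        rw [← hTJ, Submodule.mem_finsetInf]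
        intro M hM
        have hMmax := hT M hM
        have hMprime : M.IsPrime := hMmax.isPrime
        have h2 : ((φ ^ (k : ℤ)) c ∈ M) = ((φ ^ (l : ℤ)) c ∈ M) := congrFun heq ⟨M, hM⟩
        have hJM : Ring.jacobson A ≤ M := by
          rw [← hTJ]
          exact Finset.inf_le hM
        have hor : ∀ n : ℤ, (φ ^ n) c ∈ M ∨ (φ ^ n) c - 1 ∈ M := by
          intro n
          apply hMprime.mem_or_mem
          have h3 := hJM (hcn n)
          have : (φ ^ n) c * ((φ ^ n) c - 1) = (φ ^ n) c * (φ ^ n) c - (φ ^ n) c := by ring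
          rw [this]
          exact h3
        show (φ ^ (l : ℤ)) c - (φ ^ (k : ℤ)) c ∈ M
        by_cases hk : (φ ^ (k : ℤ)) c ∈ M
        · exact M.sub_mem (h2 ▸ hk) hk
        · have hl : (φ ^ (l : ℤ)) c ∉ M := h2 ▸ hk
          have h3 := (hor l).resolve_left hl
          have h4 := (hor k).resolve_left hk
          have : (φ ^ (l : ℤ)) c - (φ ^ (k : ℤ)) c =
            ((φ ^ (l : ℤ)) c - 1) - ((φ ^ (k : ℤ)) c - 1) := by ring
          rw [this]
          exact M.sub_mem h3 h4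
      have h2 := hφJ (-(k : ℤ)) _ h1
      rw [map_sub, ← zpow_add_apply, ← zpow_add_apply, neg_add_cancel, zpow_zero] at h2
      have e : -(k : ℤ) + l = ((l - k : ℕ) : ℤ) := by
        rw [Nat.cast_sub hkl.le]; ring
      rw [e] at h2
      exact h2
    rcases lt_or_gt_of_ne hkl with hlt | hlt
    · exact key k l hlt heq
    · exact key l k hlt heq.symm
  obtain ⟨n, hn, hcn1⟩ := hper
  -- all the translates by multiples of `-n` agree with `c` modulo `J(A)`
  have hall : ∀ s : ℕ, (φ ^ (-((n : ℤ) * s))) c - c ∈ Ring.jacobson A := by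
    intro s
    induction s with
    | zero => simp
    | succ s ih =>
      have h1 := hφJ (-((n : ℤ) * ((s + 1 : ℕ) : ℤ))) _ hcn1
      rw [map_sub, ← zpow_add_apply] at h1
      have e : -((n : ℤ) * ((s + 1 : ℕ) : ℤ)) + n = -((n : ℤ) * s) := by push_cast; ring
      rw [e] at h1
      have h2 := Submodule.sub_mem _ ih h1
      have e2 : (φ ^ (-((n : ℤ) * s))) c - c - ((φ ^ (-((n : ℤ) * s))) c -
        (φ ^ (-((n : ℤ) * ((s + 1 : ℕ) : ℤ)))) c) = (φ ^ (-((n : ℤ) * ((s + 1 : ℕ) : ℤ)))) c - c := by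
        ring
      rw [e2] at h2
      exact h2
  obtain ⟨k, hk⟩ := exists_nprod_eq_zero h hc (i := n) (by exact_mod_cast hn)
  have hk1 : nprod φ n (c * c - c) (k + 1) = 0 := by rw [nprod_succ, hk, zero_mul]
  have hprod : ∀ (x : A) (l : ℕ), nprod φ n x l =
      ∏ s ∈ Finset.range l, (φ ^ (-((n : ℤ) * s))) x := by
    intro x l
    induction l with
    | zero => simp [nprod]
    | succ l ih => rw [nprod_succ, ih, Finset.prod_range_succ]
  -- the two products
  let u : A := ∏ s ∈ Finset.range (k + 1), (φ ^ (-((n : ℤ) * s))) c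
  let v : A := ∏ s ∈ Finset.range (k + 1), (1 - (φ ^ (-((n : ℤ) * s))) c)
  have huv : u * v = 0 := by
    have h1 : u * v = ∏ s ∈ Finset.range (k + 1), (-1 * (φ ^ (-((n : ℤ) * s))) (c * c - c)) := by
      rw [← Finset.prod_mul_distrib]
      refine Finset.prod_congr rfl fun s _ => ?_
      rw [map_sub, map_mul]
      ring
    rw [h1, Finset.prod_mul_distrib, ← hprod, hk1, mul_zero]
  have hmk : ∀ s : ℕ, Ideal.Quotient.mk (Ring.jacobson A) ((φ ^ (-((n : ℤ) * s))) c) =
      Ideal.Quotient.mk (Ring.jacobson A) c := fun s => Ideal.Quotient.eq.2 (hall s)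
  have hmu : Ideal.Quotient.mk (Ring.jacobson A) u = Ideal.Quotient.mk (Ring.jacobson A) c := by
    rw [map_prod, Finset.prod_congr rfl (fun s _ => hmk s), Finset.prod_const, Finset.card_range]
    exact he.pow_succ_eq k
  have hmv : Ideal.Quotient.mk (Ring.jacobson A) v = 1 - Ideal.Quotient.mk (Ring.jacobson A) c := by
    rw [map_prod, Finset.prod_congr rfl (fun s _ => by rw [map_sub, map_one, hmk s]),
      Finset.prod_const, Finset.card_range]
    exact he.one_sub.pow_succ_eq k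
  have hw : IsUnit (u + v) := by
    have h1 : u + v - 1 ∈ Ring.jacobson A := by
      rw [← Ideal.Quotient.eq, map_add, hmu, hmv, map_one]
      ring
    have h2 := isUnit_one_add h1
    rwa [add_sub_cancel] at h2
  obtain ⟨w, hw⟩ := hw
  have huw : u * u = u * w := by
    rw [hw, mul_add, huv, add_zero]
  refine ⟨u * (w⁻¹ : Aˣ), ?_, ?_⟩
  · show u * (w⁻¹ : Aˣ) * (u * (w⁻¹ : Aˣ)) = u * (w⁻¹ : Aˣ)
    calc u * (w⁻¹ : Aˣ) * (u * (w⁻¹ : Aˣ)) = (u * u) * ((w⁻¹ : Aˣ) * (w⁻¹ : Aˣ)) := by ring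
      _ = u * (w⁻¹ : Aˣ) * (w * (w⁻¹ : Aˣ)) := by rw [huw]; ring
      _ = u * (w⁻¹ : Aˣ) := by rw [Units.mul_inv, mul_one]
  · have h1 : Ideal.Quotient.mk (Ring.jacobson A) (w : A) = 1 := by
      rw [hw, map_add, hmu, hmv]
      ring
    have h2 : Ideal.Quotient.mk (Ring.jacobson A) ((w⁻¹ : Aˣ) : A) = 1 := by
      have h3 := congrArg (Ideal.Quotient.mk (Ring.jacobson A)) (Units.mul_inv w)
      rw [map_mul, h1, one_mul, map_one] at h3
      exact h3
    rw [map_mul, h2, mul_one, hmu]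

/-- if `A((x,φ))` is local, then so is `A` -/
theorem isLocalRing_coeff {A : Type u} [Ring A] {φ : RingAut A}
    (h : IsLocalRing (SkewLaurent A φ)) : IsLocalRing A := by
  have hunit : ∀ a : A, IsUnit (mono φ 0 a) → IsUnit a := by
    rintro a ⟨u, hu⟩
    have h1 : mono φ 0 a * (u⁻¹ : (SkewLaurent A φ)ˣ).1 = 1 := by rw [← hu, Units.mul_inv]
    have h2 : (u⁻¹ : (SkewLaurent A φ)ˣ).1 * mono φ 0 a = 1 := by rw [← hu, Units.inv_mul]
    have h3 := congrArg (fun f => coeff f 0) h1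
    have h4 := congrArg (fun f => coeff f 0) h2
    simp only [coeff_mono_mul, coeff_mul_mono, SkewLaurent.coeff_one, if_true, sub_zero,
      zpow_zero] at h3 h4
    exact ⟨⟨a, (u⁻¹ : (SkewLaurent A φ)ˣ).1.coeff 0, h3, h4⟩, rfl⟩
  have hne : Nontrivial A := by
    by_contra hcon
    rw [not_nontrivial_iff_subsingleton] at hcon
    refine zero_ne_one (α := SkewLaurent A φ) ?_
    ext n
    exact Subsingleton.elim _ _
  refine { isUnit_or_isUnit_of_add_one := fun {a b} hab => ?_ }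
  have h1 : mono φ 0 a + mono φ 0 b = 1 := by
    rw [← SkewLaurent.mono_add, hab]
    rfl
  rcases IsLocalRing.isUnit_or_isUnit_of_add_one h1 with h2 | h2
  · exact Or.inl (hunit a h2)
  · exact Or.inr (hunit b h2)

end Pool.Agent.KS6_70.SK
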