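import Mathlib

/-!
# Skew Laurent series rings, semilocal and semiperfect rings: definitions
-/

set_option autoImplicit false

namespace Pool.Agent.KS6_70.SK


universe u

/-! ### Skew Laurent series rings -/

/-- The additive group of all functions `ℤ → A` with support bounded below. -/
def boundedBelow (A : Type u) [Ring A] : AddSubgroup (ℤ → A) where
  carrier := {f | ∃ N : ℤ, ∀ n < N, f n = 0}
  zero_mem' := ⟨0, fun _ _ => rfl⟩
  add_mem' := by
    rintro f g ⟨N, hN⟩ ⟨M, hM⟩
    refine ⟨min N M, fun n hn => ?_⟩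
    rw [Pi.add_apply, hN n (lt_of_lt_of_le hn (min_le_left _ _)),
      hM n (lt_of_lt_of_le hn (min_le_right _ _)), add_zero]
  neg_mem' := by
    rintro f ⟨N, hN⟩
    exact ⟨N, fun n hn => by rw [Pi.neg_apply, hN n hn, neg_zero]⟩

/-- The skew Laurent series ring `A((x,φ))`. The element `f` stands for the formal series
`∑ f.1 n * x ^ n`, with the coefficients on the left. -/
def SkewLaurent (A : Type u) [Ring A] (_φ : RingAut A) : Type u := boundedBelow A

namespace SkewLaurent

variable {A : Type u} [Ring A] {φ : RingAut A}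

instance : AddCommGroup (SkewLaurent A φ) := inferInstanceAs (AddCommGroup (boundedBelow A))

/-- The coefficient of `x ^ n`. -/
def coeff (f : SkewLaurent A φ) (n : ℤ) : A := f.1 n

@[ext] lemma ext {f g : SkewLaurent A φ} (h : ∀ n, f.coeff n = g.coeff n) : f = g :=
  Subtype.ext (funext h)

@[simp] lemma coeff_zero (n : ℤ) : (0 : SkewLaurent A φ).coeff n = 0 := rfl
@[simp] lemma coeff_add (f g : SkewLaurent A φ) (n : ℤ) :
    (f + g).coeff n = f.coeff n + g.coeff n := rfl
@[simp] lemma coeff_neg (f : SkewLaurent A φ) (n : ℤ) : (-f).coeff n = -f.coeff n := rfl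
@[simp] lemma coeff_sub (f g : SkewLaurent A φ) (n : ℤ) :
    (f - g).coeff n = f.coeff n - g.coeff n := rfl

lemma bdd (f : SkewLaurent A φ) : ∃ N : ℤ, ∀ n < N, f.coeff n = 0 := f.2

lemma zpow_add_apply (i j : ℤ) (a : A) : (φ ^ (i + j)) a = (φ ^ i) ((φ ^ j) a) := by
  rw [zpow_add]; rfl

/-- the terms of the sum defining the product have finite support -/
lemma finite_support (f g : SkewLaurent A φ) (n : ℤ) :
    Function.HasFiniteSupport fun i : ℤ => f.coeff i * (φ ^ i) (g.coeff (n - i)) := by
  obtain ⟨N, hN⟩ := f.bdd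
  obtain ⟨M, hM⟩ := g.bdd
  refine Set.Finite.subset (Set.finite_Icc N (n - M)) fun i hi => ?_
  rw [Function.mem_support] at hi
  rw [Set.mem_Icc]
  by_contra hcon
  apply hi
  by_cases h : i < N
  · rw [hN i h, zero_mul]
  · have h2 : n - i < M := by
      by_contra h3
      exact hcon ⟨by omega, by omega⟩
    rw [hM _ h2, map_zero, mul_zero]

lemma mul_bdd (f g : SkewLaurent A φ) {N M : ℤ} (hN : ∀ n < N, f.coeff n = 0)
    (hM : ∀ n < M, g.coeff n = 0) (n : ℤ) (hn : n < N + M) :
    ∑ᶠ i : ℤ, f.coeff i * (φ ^ i) (g.coeff (n - i)) = 0 := by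
  rw [← finsum_zero (α := ℤ)]
  congr 1
  funext i
  by_cases h : i < N
  · rw [hN i h, zero_mul]
  · rw [hM (n - i) (by omega), map_zero, mul_zero]

/-- The product: `x a = φ(a) x`, so the coefficient of `x ^ n` in `f g` is the (finite) sum of all
`f_i φ^i(g_{n-i})`. -/
noncomputable instance : Mul (SkewLaurent A φ) where
  mul f g := ⟨fun n => ∑ᶠ i : ℤ, f.coeff i * (φ ^ i) (g.coeff (n - i)), by
    obtain ⟨N, hN⟩ := f.bdd
    obtain ⟨M, hM⟩ := g.bdd
    exact ⟨N + M, mul_bdd f g hN hM⟩⟩

lemma coeff_mul (f g : SkewLaurent A φ) (n : ℤ) :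
    (f * g).coeff n = ∑ᶠ i : ℤ, f.coeff i * (φ ^ i) (g.coeff (n - i)) := rfl

/-- The series `a x ^ n`. -/
noncomputable def mono (φ : RingAut A) (n : ℤ) (a : A) : SkewLaurent A φ :=
  ⟨fun m => if m = n then a else 0, n, fun m hm => if_neg (by omega)⟩

lemma coeff_mono (n : ℤ) (a : A) (m : ℤ) :
    (mono φ n a).coeff m = if m = n then a else 0 := rfl

noncomputable instance : One (SkewLaurent A φ) := ⟨mono φ 0 1⟩

lemma one_def : (1 : SkewLaurent A φ) = mono φ 0 1 := rfl

lemma coeff_mono_mul (n : ℤ) (a : A) (f : SkewLaurent A φ) (m : ℤ) :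
    (mono φ n a * f).coeff m = a * (φ ^ n) (f.coeff (m - n)) := by
  rw [coeff_mul, finsum_eq_single _ n]
  · rw [coeff_mono, if_pos rfl]
  · intro i hi
    rw [coeff_mono, if_neg hi, zero_mul]

lemma coeff_mul_mono (n : ℤ) (a : A) (f : SkewLaurent A φ) (m : ℤ) :
    (f * mono φ n a).coeff m = f.coeff (m - n) * (φ ^ (m - n)) a := by
  rw [coeff_mul, finsum_eq_single _ (m - n)]
  · rw [coeff_mono, if_pos (by omega)]
  · intro i hi
    rw [coeff_mono, if_neg (by omega), map_zero, mul_zero]

protected lemma mul_assoc (f g h : SkewLaurent A φ) : f * g * h = f * (g * h) := by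
  ext n
  rw [coeff_mul, coeff_mul]
  have e1 : (fun i => (f * g).coeff i * (φ ^ i) (h.coeff (n - i))) = fun i =>
      ∑ᶠ j : ℤ, f.coeff j * (φ ^ j) (g.coeff (i - j)) * (φ ^ i) (h.coeff (n - i)) := by
    funext i
    rw [coeff_mul, finsum_mul' _ _ (finite_support f g i)]
  have e2 : (fun j => f.coeff j * (φ ^ j) ((g * h).coeff (n - j))) = fun j =>
      ∑ᶠ i : ℤ, f.coeff j * (φ ^ j) (g.coeff (i - j)) * (φ ^ i) (h.coeff (n - i)) := by
    funext j
    rw [coeff_mul]
    have hmap := (φ ^ j : RingAut A).toAddMonoidHom.map_finsum (finite_support g h (n - j))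
    change (φ ^ j) _ = ∑ᶠ i, (φ ^ j) _ at hmap
    rw [hmap, mul_finsum' _ _ (by
      refine (finite_support g h (n - j)).subset fun i hi => ?_
      rw [Function.mem_support] at hi ⊢
      intro h0
      exact hi (by rw [h0, map_zero]))]
    rw [← finsum_comp_equiv (Equiv.subRight j)]
    congr 1
    funext i
    rw [Equiv.subRight_apply, map_mul, ← zpow_add_apply, mul_assoc,
      show j + (i - j) = i by ring, show n - j - (i - j) = n - i by ring]
  rw [e1, e2]
  have hfin : Function.HasFiniteSupport (fun p : ℤ × ℤ =>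
      f.coeff p.2 * (φ ^ p.2) (g.coeff (p.1 - p.2)) * (φ ^ p.1) (h.coeff (n - p.1))) := by
    obtain ⟨N, hN⟩ := f.bdd
    obtain ⟨M, hM⟩ := g.bdd
    obtain ⟨L, hL⟩ := h.bdd
    refine Set.Finite.subset ((Set.finite_Icc (N + M) (n - L)).prod
      (Set.finite_Icc N (n - L - M))) fun p hp => ?_
    rw [Function.mem_support] at hp
    have h1 : ¬ p.2 < N := fun h => hp (by rw [hN _ h, zero_mul, zero_mul])
    have h2 : ¬ p.1 - p.2 < M := fun h => hp (by rw [hM _ h, map_zero, mul_zero, zero_mul])
    have h3 : ¬ n - p.1 < L := fun h => hp (by rw [hL _ h, map_zero, mul_zero])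
    rw [Set.mem_prod, Set.mem_Icc, Set.mem_Icc]
    omega
  have hfin' : Function.HasFiniteSupport (fun p : ℤ × ℤ =>
      f.coeff p.1 * (φ ^ p.1) (g.coeff (p.2 - p.1)) * (φ ^ p.2) (h.coeff (n - p.2))) := by
    refine Set.Finite.subset (Set.Finite.image Prod.swap hfin) fun p hp => ?_
    exact ⟨p.swap, hp, p.swap_swap⟩
  rw [← finsum_curry (fun p : ℤ × ℤ =>
      f.coeff p.2 * (φ ^ p.2) (g.coeff (p.1 - p.2)) * (φ ^ p.1) (h.coeff (n - p.1))) hfin,
    ← finsum_curry (fun p : ℤ × ℤ =>
      f.coeff p.1 * (φ ^ p.1) (g.coeff (p.2 - p.1)) * (φ ^ p.2) (h.coeff (n - p.2))) hfin',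
    ← finsum_comp_equiv (Equiv.prodComm ℤ ℤ)]
  rfl

noncomputable instance : Ring (SkewLaurent A φ) :=
  { (inferInstance : AddCommGroup (SkewLaurent A φ)) with
    mul := (· * ·)
    one := 1
    left_distrib := fun f g h => by
      ext n
      change (f * (g + h)).coeff n = (f * g + f * h).coeff n
      rw [coeff_add, coeff_mul, coeff_mul, coeff_mul,
        ← finsum_add_distrib (finite_support f g n) (finite_support f h n)]
      congr 1
      funext i
      rw [coeff_add, map_add, mul_add]
    right_distrib := fun f g h => by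
      ext n
      change ((f + g) * h).coeff n = (f * h + g * h).coeff n
      rw [coeff_add, coeff_mul, coeff_mul, coeff_mul,
        ← finsum_add_distrib (finite_support f h n) (finite_support g h n)]
      congr 1
      funext i
      rw [coeff_add, add_mul]
    zero_mul := fun f => by
      ext n
      change (0 * f).coeff n = (0 : SkewLaurent A φ).coeff n
      rw [coeff_mul, coeff_zero]
      exact finsum_eq_zero_of_forall_eq_zero fun i => by rw [coeff_zero, zero_mul]
    mul_zero := fun f => by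
      ext n
      change (f * 0).coeff n = (0 : SkewLaurent A φ).coeff n
      rw [coeff_mul, coeff_zero]
      exact finsum_eq_zero_of_forall_eq_zero fun i => by rw [coeff_zero, map_zero, mul_zero]
    mul_assoc := SkewLaurent.mul_assoc
    one_mul := fun f => by
      ext n
      change (mono φ 0 1 * f).coeff n = f.coeff n
      rw [coeff_mono_mul, zpow_zero, one_mul, sub_zero]
      rfl
    mul_one := fun f => by
      ext n
      change (f * mono φ 0 1).coeff n = f.coeff n
      rw [coeff_mul_mono, sub_zero, map_one, mul_one] }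

end SkewLaurent

/-! ### Semilocal rings -/

/-- A ring `R` is semilocal if `R / J(R)` is semisimple Artinian. -/
def IsSemilocal (R : Type u) [Ring R] : Prop := IsSemisimpleRing (R ⧸ Ring.jacobson R)

/-- A ring is semiperfect if it is semilocal and the idempotents of `R / J(R)` lift. -/
def IsSemiperfect (R : Type u) [Ring R] : Prop :=
  IsSemilocal R ∧ ∀ e : R ⧸ Ring.jacobson R, IsIdempotentElem e →
    ∃ f : R, IsIdempotentElem f ∧ Ideal.Quotient.mk (Ring.jacobson R) f = e

end Pool.Agent.KS6_70.SK
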